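import Pool.Agent.Lib.helper6.Tau

namespace Pool.Agent.Results.MP_f5b38d_co.NotTight

open Finset SimpleGraph Pool.Agent.H6Tau

/-- the number of internal edges: edges neither of whose ends has degree one -/
noncomputable def internal {V : Type} (G : SimpleGraph V) : ℕ :=
  {e ∈ G.edgeSet | ∀ v ∈ e, (G.neighborSet v).ncard ≠ 1}.ncard

/-- the number of components isomorphic to the path with `r` vertices -/
noncomputable def comps {V : Type} (G : SimpleGraph V) (r : ℕ) : ℕ :=
  {C : G.ConnectedComponent | Nonempty (C.toSimpleGraph ≃g pathGraph r)}.ncard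

/-- the upper bound `β` -/
noncomputable def beta {V : Type} (G : SimpleGraph V) : ℤ :=
  ⌊min ((3 + 2 * √2) * ((G.edgeSet.ncard : ℝ) - Nat.card V) +
      (1 + √2) * (G.edgeSet.ncard + 1 / 2))
    (2 * G.edgeSet.ncard + 5 * ((internal G : ℝ) - comps G 3) + 1)⌋

def e (i : Fin 19) : Sym2 (Fin 19) := if i = 0 then s(1, 2) else s(0, i)

def A (u v : Fin 19) : Prop := u ≠ v ∧ (u = 0 ∨ v = 0 ∨ u.1 + v.1 = 3 ∧ u.1 * v.1 = 2)

instance : DecidableRel A := fun u v => by unfold A; infer_instance

def G : SimpleGraph (Fin 19) where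
  Adj := A
  symm := ⟨by decide +kernel⟩
  loopless := ⟨by decide +kernel⟩

instance : DecidableRel G.Adj := inferInstanceAs (DecidableRel A)

lemma hE : Enum G e := by
  refine ⟨by decide +kernel, Set.ext fun x => ?_⟩
  induction x using Sym2.ind with
  | _ u v =>
    rw [mem_edgeSet, Set.mem_range]
    revert u v
    decide +kernel

lemma conn : G.Connected := by
  have h : ∀ v, G.Reachable 0 v := fun v => by
    by_cases hv : v = 0
    · rw [hv]
    · exact Adj.reachable ⟨Ne.symm hv, Or.inl rfl⟩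
  exact ⟨fun u v => (h u).symm.trans (h v)⟩

lemma hc (r : ℕ) (hr : r ≠ 19) : comps G r = 0 := by
  rw [comps, Set.ncard_eq_zero]
  refine Set.eq_empty_of_forall_notMem fun C ⟨φ⟩ => hr ?_
  have h1 : C.supp = Set.univ := Set.eq_univ_of_forall fun v => by
    have := conn.preconnected.subsingleton_connectedComponent
    exact Subsingleton.elim _ _
  have h2 := Nat.card_congr φ.toEquiv
  have h3 : Nat.card C.supp = 19 := by rw [h1]; simp
  simp only [Nat.card_eq_fintype_card, Fintype.card_fin] at h2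
  exact h2.symm.trans h3

lemma hk : internal G = 3 := by
  have : {x ∈ G.edgeSet | ∀ v ∈ x, (G.neighborSet v).ncard ≠ 1} =
      ({s(1, 2), s(0, 1), s(0, 2)} : Finset (Sym2 (Fin 19))) := by
    ext x
    induction x using Sym2.ind with
    | _ u v =>
      simp only [Set.mem_ofPred_eq, mem_edgeSet, Sym2.mem_iff, forall_eq_or_imp, forall_eq,
        mem_coe, Set.ncard_eq_toFinset_card']
      revert u v
      decide +kernel
  rw [internal, this, Set.ncard_coe_finset]
  decide +kernel

lemma hb : beta G = 47 := by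
  have h1 : (1.414 : ℝ) < √2 := Real.lt_sqrt_of_sq_lt (by norm_num)
  have h2 : √2 < (1.42 : ℝ) := (Real.sqrt_lt' (by norm_num)).mpr (by norm_num)
  rw [beta, hE.ncard, hk, hc 3 (by norm_num), Int.floor_eq_iff]
  simp only [Nat.card_eq_fintype_card, Fintype.card_fin]
  push_cast
  refine ⟨le_min (by nlinarith) (by norm_num), min_lt_of_left_lt (by nlinarith)⟩

lemma main : ¬ Antimagic (G.sum (P3s (46 + 1))) := by
  have hS := hE.sum (enum_P3 (46 + 1))
  rw [am_iff hS]
  rintro ⟨l, hl⟩
  have h1 := total hS l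
  rw [sum_l hl.1, ← add_sum_erase _ _ (mem_univ (Sum.inl 0))] at h1
  have h2 := low (univ.erase (Sum.inl 0)) _ 0 hl.2.injOn fun v _ =>
    vs_pos hl v (cover_P3 e (by decide +kernel) _ v)
  have h3 := low (univ.erase (0 : Fin 19)) (fun i => l (Sum.inl i)) 0
    (fun a _ b _ h => Sum.inl_injective (hl.1.injOn trivial trivial h))
    fun i _ => (hl.1.mapsTo trivial).1
  have h4 : vs (se e (pe (46 + 1))) l (Sum.inl 0) = ∑ i ∈ univ.erase 0, l (Sum.inl i) := by
    rw [vs_inl, vs, ← sum_filter]
    congr 1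
  rw [h4] at h1
  simp only [card_erase_of_mem (mem_univ _), card_univ, Fintype.card_sum, Fintype.card_prod,
    Fintype.card_fin, Fintype.card_bool] at h1 h2 h3
  omega

theorem result : ∃ (n : ℕ) (G : SimpleGraph (Fin n)), G.Connected ∧ (∀ v, ∃ w, G.Adj v w) ∧
    comps G 2 = 0 ∧ 0 ≤ beta G ∧ tau G < ((beta G : ℝ) : EReal) := by
  refine ⟨19, G, conn, by decide +kernel, hc 2 (by norm_num), by rw [hb]; norm_num, ?_⟩
  refine (tau_lt G 46 main).trans_lt ?_
  rw [hb]
  exact EReal.coe_lt_coe_iff.mpr (by norm_num : ((46 : ℕ) : ℝ) < ((47 : ℤ) : ℝ))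

end Pool.Agent.Results.MP_f5b38d_co.NotTight
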